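import Pool.Agent.Helper57.NX.Defs

/-!
# NX-7: a local inverse theorem for the two-dimensional box norm on common blocks
-/

set_option autoImplicit false

open Finset
open scoped BigOperators ComplexConjugate

namespace Pool.Agent.Helper57.NX

noncomputable section

theorem h36_norm_e (t : ℝ) : ‖e t‖ = 1 := by
  unfold e
  rw [show (2 * (Real.pi : ℂ) * t * Complex.I) = ((2 * Real.pi * t : ℝ) : ℂ) * Complex.I by
    push_cast; ring]
  exact Complex.norm_exp_ofReal_mul_I _

theorem h36_e_add (s t : ℝ) : e (s + t) = e s * e t := by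
  unfold e
  rw [← Complex.exp_add]
  congr 1
  push_cast
  ring

theorem h36_e_int (n : ℤ) : e n = 1 := by
  unfold e
  rw [Complex.exp_eq_one_iff]
  exact ⟨n, by push_cast; ring⟩

theorem h36_conj_e (t : ℝ) : conj (e t) = e (-t) := by
  unfold e
  rw [← Complex.exp_conj]
  congr 1
  rw [map_mul, map_mul, map_mul, Complex.conj_I, Complex.conj_ofReal, Complex.conj_ofReal,
    Complex.conj_ofNat]
  push_cast
  ring

theorem h36_e_nat_mul (t : ℝ) (n : ℕ) : e (n * t) = e t ^ n := by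
  unfold e
  rw [← Complex.exp_nat_mul]
  congr 1
  push_cast
  ring

theorem h36_e_eq_one {t : ℝ} (h : e t = 1) : ∃ n : ℤ, t = n := by
  unfold e at h
  rw [Complex.exp_eq_one_iff] at h
  obtain ⟨n, hn⟩ := h
  refine ⟨n, ?_⟩
  have h2 : (2 * (Real.pi : ℂ) * Complex.I) ≠ 0 := by
    simp [Real.pi_ne_zero]
  have h3 : (t : ℂ) * (2 * (Real.pi : ℂ) * Complex.I) = (n : ℂ) * (2 * (Real.pi : ℂ) * Complex.I) := by
    rw [← hn]; ring
  have h4 := mul_right_cancel₀ h2 h3
  exact_mod_cast h4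

/-- orthogonality of the characters -/
theorem h36_orth (M : ℕ) (hM : 0 < M) (a b : ℕ) (ha : a < M) (hb : b < M) :
    ∑ s ∈ range M, e ((s : ℝ) * a / M) * e (-((s : ℝ) * b / M)) =
      if a = b then (M : ℂ) else 0 := by
  have hMR : (M : ℝ) ≠ 0 := by exact_mod_cast hM.ne'
  have h1 : ∀ s ∈ range M, e ((s : ℝ) * a / M) * e (-((s : ℝ) * b / M)) =
      e (((a : ℝ) - b) / M) ^ s := by
    intro s _
    rw [← h36_e_add, ← h36_e_nat_mul]
    congr 1
    ring
  rw [sum_congr rfl h1]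
  split_ifs with hab
  · subst hab
    have : e (((a : ℝ) - a) / M) = 1 := by
      have := h36_e_int 0
      simpa using this
    rw [this]
    simp
  · have hne : e (((a : ℝ) - b) / M) ≠ 1 := by
      intro h
      obtain ⟨n, hn⟩ := h36_e_eq_one h
      rw [div_eq_iff hMR] at hn
      have hn' : (a : ℤ) - b = n * M := by exact_mod_cast hn
      have h3 : |(a : ℤ) - b| < M := by
        rw [abs_lt]; constructor <;> omega
      rw [hn', abs_mul] at h3
      have h4 : |(M : ℤ)| = M := abs_of_nonneg (by positivity)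
      rw [h4] at h3
      have h5 : |n| < 1 := by
        by_contra h6
        push Not at h6
        nlinarith [show (0 : ℤ) < M by exact_mod_cast hM]
      have h6 : n = 0 := Int.abs_lt_one_iff.mp h5
      rw [h6] at hn'
      apply hab
      omega
    rw [geom_sum_eq hne]
    have : e (((a : ℝ) - b) / M) ^ M = 1 := by
      rw [← h36_e_nat_mul, mul_div_cancel₀ _ hMR]
      have := h36_e_int ((a : ℤ) - b)
      rw [← this]
      congr 1
      push_cast
      ring
    rw [this]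
    simp

theorem h36_parseval (M X : ℕ) (hM : 0 < M) (hX : X ≤ M) (p : ℕ → ℂ) :
    ∑ s ∈ range M, ‖∑ z ∈ range X, p z * e ((s : ℝ) * z / M)‖ ^ 2 =
      M * ∑ z ∈ range X, ‖p z‖ ^ 2 := by
  have key : ((∑ s ∈ range M, ‖∑ z ∈ range X, p z * e ((s : ℝ) * z / M)‖ ^ 2 : ℝ) : ℂ) =
      ((M * ∑ z ∈ range X, ‖p z‖ ^ 2 : ℝ) : ℂ) := by
    push_cast
    have h1 : ∀ s ∈ range M, ((‖∑ z ∈ range X, p z * e ((s : ℝ) * z / M)‖ : ℂ)) ^ 2 =
        ∑ z ∈ range X, ∑ z' ∈ range X, p z * conj (p z') *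
          (e ((s : ℝ) * z / M) * e (-((s : ℝ) * z' / M))) := by
      intro s _
      rw [← Complex.mul_conj', map_sum, Finset.sum_mul_sum]
      refine sum_congr rfl fun z _ => sum_congr rfl fun z' _ => ?_
      rw [map_mul, h36_conj_e]
      ring
    rw [sum_congr rfl h1, sum_comm, mul_sum]
    refine sum_congr rfl fun z hz => ?_
    rw [sum_comm]
    have h2 : ∀ z' ∈ range X, ∑ s ∈ range M, p z * conj (p z') *
          (e ((s : ℝ) * z / M) * e (-((s : ℝ) * z' / M))) =
        if z = z' then p z * conj (p z') * M else 0 := by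
      intro z' hz'
      rw [← mul_sum, h36_orth M hM z z' (lt_of_lt_of_le (mem_range.mp hz) hX)
        (lt_of_lt_of_le (mem_range.mp hz') hX)]
      split_ifs <;> simp
    rw [sum_congr rfl h2, sum_ite_eq, if_pos hz, Complex.mul_conj']
    ring
  exact_mod_cast key

theorem h36_inversion (M : ℕ) (hM : 0 < M) (w : ℕ → ℂ) (t : ℕ) (ht : t < M) :
    (M : ℂ) * w t = ∑ s ∈ range M,
      (∑ u ∈ range M, w u * e (-((s : ℝ) * u / M))) * e ((s : ℝ) * t / M) := by
  have h1 : ∀ s ∈ range M,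
      (∑ u ∈ range M, w u * e (-((s : ℝ) * u / M))) * e ((s : ℝ) * t / M) =
      ∑ u ∈ range M, w u * (e ((s : ℝ) * t / M) * e (-((s : ℝ) * u / M))) := by
    intro s _
    rw [sum_mul]
    exact sum_congr rfl fun u _ => by ring
  rw [sum_congr rfl h1, sum_comm]
  have h2 : ∀ u ∈ range M, ∑ s ∈ range M, w u * (e ((s : ℝ) * t / M) * e (-((s : ℝ) * u / M))) =
      if t = u then w u * M else 0 := by
    intro u hu
    rw [← mul_sum, h36_orth M hM t u ht (mem_range.mp hu)]
    split_ifs <;> simp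
  rw [sum_congr rfl h2, sum_ite_eq, if_pos (mem_range.mpr ht)]
  ring

/-- a bilinear estimate -/
theorem h36_bilin (X : ℕ) (hX : 1 ≤ X) (w p q : ℕ → ℂ) (hp : ∀ z, ‖p z‖ ≤ 1)
    (hq : ∀ z, ‖q z‖ ≤ 1) (V : ℝ)
    (hV : ∀ s ∈ range (2 * X),
      ‖∑ u ∈ range (2 * X), w u * e (-((s : ℝ) * u / (2 * X : ℕ)))‖ ≤ V) :
    ‖∑ z ∈ range X, ∑ y ∈ range X, w (z + y) * p z * q y‖ ≤ X * V := by
  have hM : 0 < 2 * X := by omega
  have hXM : X ≤ 2 * X := by omega
  set M := 2 * X with hMdef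
  have hV0 : 0 ≤ V := le_trans (norm_nonneg _) (hV 0 (mem_range.mpr hM))
  have h1 : (M : ℂ) * ∑ z ∈ range X, ∑ y ∈ range X, w (z + y) * p z * q y =
      ∑ s ∈ range M, (∑ u ∈ range M, w u * e (-((s : ℝ) * u / M))) *
        ((∑ z ∈ range X, p z * e ((s : ℝ) * z / M)) *
          (∑ y ∈ range X, q y * e ((s : ℝ) * y / M))) := by
    have h2 : ∀ z ∈ range X, ∀ y ∈ range X, (M : ℂ) * (w (z + y) * p z * q y) =
        ∑ s ∈ range M, (∑ u ∈ range M, w u * e (-((s : ℝ) * u / M))) *
          ((p z * e ((s : ℝ) * z / M)) * (q y * e ((s : ℝ) * y / M))) := by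
      intro z hz y hy
      have hlt : z + y < M := by
        have := mem_range.mp hz
        have := mem_range.mp hy
        omega
      have h3 := h36_inversion M hM w (z + y) hlt
      calc (M : ℂ) * (w (z + y) * p z * q y) = ((M : ℂ) * w (z + y)) * (p z * q y) := by ring
        _ = _ := by
          rw [h3, sum_mul]
          refine sum_congr rfl fun s _ => ?_
          have h4 : e ((s : ℝ) * ((z + y : ℕ) : ℝ) / M) =
              e ((s : ℝ) * z / M) * e ((s : ℝ) * y / M) := by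
            rw [← h36_e_add]
            congr 1
            push_cast
            ring
          rw [h4]
          ring
    rw [mul_sum]
    calc ∑ z ∈ range X, (M : ℂ) * ∑ y ∈ range X, w (z + y) * p z * q y
        = ∑ z ∈ range X, ∑ y ∈ range X, ∑ s ∈ range M,
            (∑ u ∈ range M, w u * e (-((s : ℝ) * u / M))) *
            ((p z * e ((s : ℝ) * z / M)) * (q y * e ((s : ℝ) * y / M))) := by
          refine sum_congr rfl fun z hz => ?_
          rw [mul_sum]
          exact sum_congr rfl fun y hy => h2 z hz y hy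
      _ = ∑ s ∈ range M, ∑ z ∈ range X, ∑ y ∈ range X,
            (∑ u ∈ range M, w u * e (-((s : ℝ) * u / M))) *
            ((p z * e ((s : ℝ) * z / M)) * (q y * e ((s : ℝ) * y / M))) := by
          refine Eq.trans (sum_congr rfl fun z _ => sum_comm) ?_
          exact sum_comm
      _ = _ := by
          refine sum_congr rfl fun s _ => ?_
          rw [sum_mul_sum, mul_sum]
          refine sum_congr rfl fun z _ => ?_
          rw [mul_sum]
  have h5 : ‖(M : ℂ) * ∑ z ∈ range X, ∑ y ∈ range X, w (z + y) * p z * q y‖ ≤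
      V * (M * X) := by
    rw [h1]
    have hP := h36_parseval M X hM hXM p
    have hQ := h36_parseval M X hM hXM q
    have hP2 : ∑ z ∈ range X, ‖p z‖ ^ 2 ≤ X := by
      calc ∑ z ∈ range X, ‖p z‖ ^ 2 ≤ ∑ z ∈ range X, (1 : ℝ) :=
            sum_le_sum fun z _ => by
              have := hp z
              have := norm_nonneg (p z)
              nlinarith
        _ = X := by simp
    have hQ2 : ∑ z ∈ range X, ‖q z‖ ^ 2 ≤ X := by
      calc ∑ z ∈ range X, ‖q z‖ ^ 2 ≤ ∑ z ∈ range X, (1 : ℝ) :=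
            sum_le_sum fun z _ => by
              have := hq z
              have := norm_nonneg (q z)
              nlinarith
        _ = X := by simp
    calc _ ≤ ∑ s ∈ range M, ‖(∑ u ∈ range M, w u * e (-((s : ℝ) * u / M))) *
        ((∑ z ∈ range X, p z * e ((s : ℝ) * z / M)) *
          (∑ y ∈ range X, q y * e ((s : ℝ) * y / M)))‖ := norm_sum_le _ _
      _ ≤ ∑ s ∈ range M, V * ((‖∑ z ∈ range X, p z * e ((s : ℝ) * z / M)‖ ^ 2 +
          ‖∑ y ∈ range X, q y * e ((s : ℝ) * y / M)‖ ^ 2) / 2) := by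
          refine sum_le_sum fun s hs => ?_
          rw [norm_mul, norm_mul]
          refine mul_le_mul (hV s hs) ?_ (by positivity) hV0
          nlinarith [sq_nonneg (‖∑ z ∈ range X, p z * e ((s : ℝ) * z / M)‖ -
            ‖∑ y ∈ range X, q y * e ((s : ℝ) * y / M)‖)]
      _ = V * ((M * ∑ z ∈ range X, ‖p z‖ ^ 2 + M * ∑ z ∈ range X, ‖q z‖ ^ 2) / 2) := by
          rw [← mul_sum, ← sum_div, sum_add_distrib, hP, hQ]
      _ ≤ V * (M * X) := by
          refine mul_le_mul_of_nonneg_left ?_ hV0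
          have hM0 : (0 : ℝ) ≤ M := by positivity
          nlinarith [mul_le_mul_of_nonneg_left hP2 hM0, mul_le_mul_of_nonneg_left hQ2 hM0]
  rw [norm_mul] at h5
  have hMn : ‖(M : ℂ)‖ = M := by simp
  rw [hMn] at h5
  have hMR : (0 : ℝ) < M := by exact_mod_cast hM
  have h6 : (M : ℝ) * ‖∑ z ∈ range X, ∑ y ∈ range X, w (z + y) * p z * q y‖ ≤
      M * (X * V) := by linarith [h5, show V * ((M : ℝ) * X) = M * (X * V) by ring]
  exact le_of_mul_le_mul_left h6 hMR

/-- the local average -/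
def h36_loc {N : ℕ} (X : ℕ) (v : ZMod N → ℂ) (x : ZMod N) : ℂ :=
  𝔼 z ∈ range X, 𝔼 z' ∈ range X, 𝔼 y ∈ range X, 𝔼 y' ∈ range X,
    v (x + (z : ZMod N) + (y : ZMod N)) * conj (v (x + (z : ZMod N) + (y' : ZMod N))) *
    conj (v (x + (z' : ZMod N) + (y : ZMod N))) * v (x + (z' : ZMod N) + (y' : ZMod N))

/-- the block correlation with the frequency `s / (2X)` -/
def h36_M {N : ℕ} (X : ℕ) (v : ZMod N → ℂ) (x : ZMod N) (s : ℕ) : ℝ :=
  ‖𝔼 t ∈ range X, v (x + (t : ZMod N)) * e (-((s : ℝ) * t / (2 * X : ℕ)))‖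

theorem h36_norm_expect_le {ι : Type*} (S : Finset ι) (f : ι → ℂ) :
    ‖𝔼 i ∈ S, f i‖ ≤ 𝔼 i ∈ S, ‖f i‖ := by
  rw [expect_eq_sum_div_card, expect_eq_sum_div_card, norm_div]
  have : ‖(S.card : ℂ)‖ = S.card := by simp
  rw [this]
  exact div_le_div_of_nonneg_right (norm_sum_le _ _) (by positivity)

theorem h36_re_expect {ι : Type*} (S : Finset ι) (f : ι → ℂ) :
    (𝔼 i ∈ S, f i).re = 𝔼 i ∈ S, (f i).re := by
  rw [expect_eq_sum_div_card, expect_eq_sum_div_card, Complex.div_natCast_re, Complex.re_sum]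

theorem h36_M_le_one {N : ℕ} (X : ℕ) (hX : 1 ≤ X) (v : ZMod N → ℂ) (hv : ∀ x, ‖v x‖ ≤ 1)
    (x : ZMod N) (s : ℕ) : h36_M X v x s ≤ 1 := by
  unfold h36_M
  refine le_trans (h36_norm_expect_le _ _) ?_
  refine expect_le ⟨0, mem_range.mpr (by omega)⟩ fun t _ => ?_
  rw [norm_mul, h36_norm_e, mul_one]
  exact hv _

theorem h36_loc_le {N : ℕ} (X : ℕ) (hX : 1 ≤ X) (v : ZMod N → ℂ) (hv : ∀ x, ‖v x‖ ≤ 1)
    (x : ZMod N) (A B : ℝ) (hA : ∀ s ∈ range (2 * X), h36_M X v x s ≤ A)
    (hB : ∀ s ∈ range (2 * X), h36_M X v (x + (X : ZMod N)) s ≤ B) :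
    ‖h36_loc X v x‖ ≤ A + B := by
  have hne : (range X).Nonempty := ⟨0, mem_range.mpr (by omega)⟩
  have hXR : (0 : ℝ) < X := by exact_mod_cast hX
  have hXC : (X : ℂ) ≠ 0 := by exact_mod_cast (show X ≠ 0 by omega)
  -- Fourier coefficients
  have hV : ∀ s ∈ range (2 * X),
      ‖∑ u ∈ range (2 * X), v (x + ((u : ℕ) : ZMod N)) * e (-((s : ℝ) * u / (2 * X : ℕ)))‖ ≤
        X * (A + B) := by
    intro s hs
    have h1 := hA s hs
    have h2 := hB s hs
    unfold h36_M at h1 h2
    rw [expect_eq_sum_div_card, norm_div, card_range, div_le_iff₀ (by simp; omega)] at h1 h2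
    simp only [Complex.norm_natCast] at h1 h2
    have e1 : ∑ u ∈ range (2 * X), v (x + ((u : ℕ) : ZMod N)) *
          e (-((s : ℝ) * u / (2 * X : ℕ))) =
        ∑ u ∈ range X, v (x + ((u : ℕ) : ZMod N)) * e (-((s : ℝ) * u / (2 * X : ℕ))) +
        e (-((s : ℝ) * X / (2 * X : ℕ))) * ∑ u ∈ range X,
          v (x + (X : ZMod N) + ((u : ℕ) : ZMod N)) * e (-((s : ℝ) * u / (2 * X : ℕ))) := by
      rw [show range (2 * X) = range (X + X) by rw [two_mul], sum_range_add, mul_sum]
      congr 1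
      refine sum_congr rfl fun u _ => ?_
      have h3 : e (-((s : ℝ) * ((X + u : ℕ) : ℝ) / (2 * X : ℕ))) =
          e (-((s : ℝ) * X / (2 * X : ℕ))) * e (-((s : ℝ) * u / (2 * X : ℕ))) := by
        rw [← h36_e_add]
        congr 1
        push_cast
        ring
      rw [h3, Nat.cast_add (R := ZMod N), ← add_assoc]
      ring
    rw [e1]
    refine le_trans (norm_add_le _ _) ?_
    rw [norm_mul, h36_norm_e, one_mul]
    linarith [h1, h2, show (X : ℝ) * (A + B) = A * X + B * X by ring]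
  have hb : ∀ z' ∈ range X, ∀ y' ∈ range X,
      ‖𝔼 z ∈ range X, 𝔼 y ∈ range X,
        v (x + (z : ZMod N) + (y : ZMod N)) * conj (v (x + (z : ZMod N) + (y' : ZMod N))) *
    conj (v (x + (z' : ZMod N) + (y : ZMod N))) * v (x + (z' : ZMod N) + (y' : ZMod N))‖ ≤
      A + B := by
    intro z' _ y' _
    have h1 := h36_bilin X hX (fun u => v (x + ((u : ℕ) : ZMod N)))
      (fun z => conj (v (x + (z : ZMod N) + (y' : ZMod N))))
      (fun y => conj (v (x + (z' : ZMod N) + (y : ZMod N))))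
      (fun z => by rw [RCLike.norm_conj]; exact hv _)
      (fun z => by rw [RCLike.norm_conj]; exact hv _) (X * (A + B)) hV
    have h2 : 𝔼 z ∈ range X, 𝔼 y ∈ range X,
        v (x + (z : ZMod N) + (y : ZMod N)) * conj (v (x + (z : ZMod N) + (y' : ZMod N))) *
    conj (v (x + (z' : ZMod N) + (y : ZMod N))) * v (x + (z' : ZMod N) + (y' : ZMod N)) =
      (∑ z ∈ range X, ∑ y ∈ range X, v (x + ((z + y : ℕ) : ZMod N)) *
        conj (v (x + (z : ZMod N) + (y' : ZMod N))) *
        conj (v (x + (z' : ZMod N) + (y : ZMod N)))) / ((X : ℂ) * X) *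
        v (x + (z' : ZMod N) + (y' : ZMod N)) := by
      rw [expect_eq_sum_div_card, card_range]
      rw [← div_div, sum_div, sum_div, sum_div, sum_mul]
      refine sum_congr rfl fun z _ => ?_
      rw [expect_eq_sum_div_card, card_range, sum_div, sum_div, sum_div, sum_div, sum_mul]
      refine sum_congr rfl fun y _ => ?_
      rw [Nat.cast_add (R := ZMod N), ← add_assoc]
      ring
    rw [h2, norm_mul, norm_div]
    have h3 : ‖(X : ℂ) * X‖ = (X : ℝ) * X := by simp
    rw [h3]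
    have h4 : ‖∑ z ∈ range X, ∑ y ∈ range X, v (x + ((z + y : ℕ) : ZMod N)) *
        conj (v (x + (z : ZMod N) + (y' : ZMod N))) *
        conj (v (x + (z' : ZMod N) + (y : ZMod N)))‖ / ((X : ℝ) * X) ≤ A + B := by
      rw [div_le_iff₀ (by positivity)]
      linarith [h1, show (A + B) * ((X : ℝ) * X) = X * (X * (A + B)) by ring]
    have h5 := hv (x + (z' : ZMod N) + (y' : ZMod N))
    have h6 : 0 ≤ A + B := le_trans (by positivity) h4
    calc _ ≤ (A + B) * 1 := mul_le_mul h4 h5 (norm_nonneg _) h6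
      _ = A + B := mul_one _
  have hc : h36_loc X v x = 𝔼 z' ∈ range X, 𝔼 y' ∈ range X, 𝔼 z ∈ range X, 𝔼 y ∈ range X,
        v (x + (z : ZMod N) + (y : ZMod N)) * conj (v (x + (z : ZMod N) + (y' : ZMod N))) *
    conj (v (x + (z' : ZMod N) + (y : ZMod N))) * v (x + (z' : ZMod N) + (y' : ZMod N)) := by
    unfold h36_loc
    rw [expect_comm]
    refine expect_congr rfl fun z' _ => ?_
    refine Eq.trans (expect_congr rfl fun z _ => expect_comm _ _ _) ?_
    exact expect_comm _ _ _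
  rw [hc]
  refine le_trans (h36_norm_expect_le _ _) ?_
  refine expect_le hne fun z' hz' => ?_
  refine le_trans (h36_norm_expect_le _ _) ?_
  exact expect_le hne fun y' hy' => hb z' hz' y' hy'

theorem u2_block {N : ℕ} [NeZero N] {κ : Type} (Λ : Finset κ) (hΛ : Λ.Nonempty)
    (v : κ → ZMod N → ℂ) (hv : ∀ i x, ‖v i x‖ ≤ 1) (X : ℕ) (hX : 1 ≤ X) (hXN : X ≤ N) :
    ∃ (r : ZMod N) (θ : κ → ℕ → ℝ), (∀ i j, |θ i j| ≤ 1 / 2) ∧
      𝔼 i ∈ Λ, U2 X (v i) ≤
        2 * (𝔼 i ∈ Λ, 𝔼 j ∈ range (N / X),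
          ‖𝔼 t ∈ range X, v i (r + ((j * X + t : ℕ) : ZMod N)) * e (-(θ i j * t))‖)
        + 2 * X / N := by
  have hN0 : 0 < N := Nat.pos_of_ne_zero (NeZero.ne N)
  have hK : 1 ≤ N / X := (Nat.one_le_div_iff (by omega)).mpr hXN
  set K := N / X with hKdef
  have hKne : (range K).Nonempty := ⟨0, mem_range.mpr (by omega)⟩
  have hM0 : (range (2 * X)).Nonempty := ⟨0, mem_range.mpr (by omega)⟩
  -- the function to average
  let g : ZMod N → ℝ := fun x => 𝔼 i ∈ Λ, (h36_loc X (v i) x).re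
  have hU : 𝔼 i ∈ Λ, U2 X (v i) = 𝔼 x : ZMod N, g x := by
    have h1 : ∀ i ∈ Λ, U2 X (v i) = 𝔼 x : ZMod N, (h36_loc X (v i) x).re := by
      intro i _
      unfold U2
      exact h36_re_expect _ _
    rw [expect_congr rfl h1, expect_comm]
  have havg : ∃ r : ZMod N, 𝔼 x : ZMod N, g x ≤ 𝔼 j ∈ range K, g (r + ((j * X : ℕ) : ZMod N)) := by
    have h1 : 𝔼 r : ZMod N, 𝔼 j ∈ range K, g (r + ((j * X : ℕ) : ZMod N)) = 𝔼 x : ZMod N, g x := by
      rw [expect_comm]
      have h2 : ∀ j ∈ range K, 𝔼 r : ZMod N, g (r + ((j * X : ℕ) : ZMod N)) = 𝔼 x : ZMod N, g x := by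
        intro j _
        exact Fintype.expect_equiv (Equiv.addRight ((j * X : ℕ) : ZMod N)) _ _ fun r => rfl
      rw [expect_congr rfl h2, expect_const hKne]
    obtain ⟨r, _, hr⟩ := exists_le_of_le_expect (s := (univ : Finset (ZMod N)))
      ⟨0, mem_univ _⟩ (le_of_eq h1.symm)
    exact ⟨r, hr⟩
  obtain ⟨r, hr⟩ := havg
  -- maximising frequencies
  have hmax : ∀ (i : κ) (j : ℕ), ∃ s ∈ range (2 * X), ∀ s' ∈ range (2 * X),
      h36_M X (v i) (r + ((j * X : ℕ) : ZMod N)) s' ≤
        h36_M X (v i) (r + ((j * X : ℕ) : ZMod N)) s := by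
    intro i j
    exact exists_max_image _ _ hM0
  choose s hs1 hs2 using hmax
  let Mx : κ → ℕ → ℝ := fun i j => h36_M X (v i) (r + ((j * X : ℕ) : ZMod N)) (s i j)
  let θ : κ → ℕ → ℝ := fun i j =>
    if s i j ≤ X then (s i j : ℝ) / (2 * X : ℕ) else (s i j : ℝ) / (2 * X : ℕ) - 1
  have hXR : (0 : ℝ) < X := by exact_mod_cast hX
  refine ⟨r, θ, ?_, ?_⟩
  · intro i j
    have h1 := mem_range.mp (hs1 i j)
    have h1' : (s i j : ℝ) ≤ 2 * X := by exact_mod_cast h1.le
    have h2X : (0 : ℝ) < ((2 * X : ℕ) : ℝ) := by push_cast; linarith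
    simp only [θ]
    split_ifs with h2
    · have h2' : (s i j : ℝ) ≤ X := by exact_mod_cast h2
      rw [abs_of_nonneg (by positivity), div_le_iff₀ h2X]
      push_cast
      linarith
    · have h2' : (X : ℝ) ≤ s i j := by exact_mod_cast (not_le.mp h2).le
      rw [abs_le]
      constructor
      · rw [neg_le_sub_iff_le_add, ← sub_le_iff_le_add, le_div_iff₀ h2X]
        push_cast
        linarith
      · have : (s i j : ℝ) / (2 * X : ℕ) ≤ 1 := by
          rw [div_le_one h2X]
          push_cast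
          exact h1'
        linarith
  · have hθ : ∀ i j, ‖𝔼 t ∈ range X, v i (r + ((j * X + t : ℕ) : ZMod N)) *
        e (-(θ i j * t))‖ = Mx i j := by
      intro i j
      simp only [Mx, h36_M]
      congr 1
      refine expect_congr rfl fun t _ => ?_
      rw [Nat.cast_add (R := ZMod N), ← add_assoc]
      congr 1
      simp only [θ]
      split_ifs with h2
      · congr 1
        ring
      · rw [show -(((s i j : ℝ) / (2 * X : ℕ) - 1) * t) =
          -((s i j : ℝ) * t / (2 * X : ℕ)) + ((t : ℤ) : ℝ) by push_cast; ring, h36_e_add,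
          h36_e_int, mul_one]
    have hloc : ∀ i ∈ Λ, ∀ j, (h36_loc X (v i) (r + ((j * X : ℕ) : ZMod N))).re ≤
        Mx i j + Mx i (j + 1) := by
      intro i _ j
      refine le_trans (Complex.re_le_norm _) ?_
      refine h36_loc_le X hX (v i) (hv i) _ _ _ (hs2 i j) ?_
      intro s' hs'
      have h1 := hs2 i (j + 1) s' hs'
      have h2 : r + ((j * X : ℕ) : ZMod N) + (X : ZMod N) =
          r + (((j + 1) * X : ℕ) : ZMod N) := by
        push_cast
        ring
      rw [h2]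
      exact h1
    have hsum : ∀ i ∈ Λ, 𝔼 j ∈ range K, (h36_loc X (v i) (r + ((j * X : ℕ) : ZMod N))).re ≤
        2 * (𝔼 j ∈ range K, Mx i j) + 2 * X / N := by
      intro i hi
      have hKR : (0 : ℝ) < K := by exact_mod_cast hK
      have h1 : ∑ j ∈ range K, (h36_loc X (v i) (r + ((j * X : ℕ) : ZMod N))).re ≤
          2 * (∑ j ∈ range K, Mx i j) + 1 := by
        have h2 : ∑ j ∈ range K, (Mx i j + Mx i (j + 1)) =
            2 * (∑ j ∈ range K, Mx i j) + (Mx i K - Mx i 0) := by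
          have h3 := sum_range_sub (fun j => Mx i j) K
          rw [sum_sub_distrib] at h3
          rw [sum_add_distrib]
          linarith
        have h4 : Mx i K ≤ 1 := h36_M_le_one X hX (v i) (hv i) _ _
        have h5 : 0 ≤ Mx i 0 := norm_nonneg _
        have h6 := sum_le_sum (s := range K) fun j _ => hloc i hi j
        linarith
      rw [expect_eq_sum_div_card, expect_eq_sum_div_card, card_range]
      have h7 : 1 / (K : ℝ) ≤ 2 * X / N := by
        rw [div_le_div_iff₀ hKR (by exact_mod_cast hN0)]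
        have h8 : N < X * (K + 1) := by
          have h9 := Nat.lt_mul_div_succ N (show 0 < X by omega)
          rw [← hKdef] at h9
          exact h9
        have h10 : N ≤ 2 * X * K := by nlinarith
        have h11 : (N : ℝ) ≤ 2 * X * K := by exact_mod_cast h10
        linarith
      calc (∑ j ∈ range K, (h36_loc X (v i) (r + ((j * X : ℕ) : ZMod N))).re) / (K : ℝ)
          ≤ (2 * (∑ j ∈ range K, Mx i j) + 1) / K := div_le_div_of_nonneg_right h1 hKR.le
        _ = 2 * ((∑ j ∈ range K, Mx i j) / K) + 1 / K := by ring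
        _ ≤ _ := by linarith
    calc 𝔼 i ∈ Λ, U2 X (v i) = 𝔼 x : ZMod N, g x := hU
      _ ≤ 𝔼 j ∈ range K, g (r + ((j * X : ℕ) : ZMod N)) := hr
      _ = 𝔼 i ∈ Λ, 𝔼 j ∈ range K, (h36_loc X (v i) (r + ((j * X : ℕ) : ZMod N))).re := by
          simp only [g]
          exact expect_comm _ _ _
      _ ≤ 𝔼 i ∈ Λ, (2 * (𝔼 j ∈ range K, Mx i j) + 2 * X / N) := expect_le_expect hsum
      _ = 2 * (𝔼 i ∈ Λ, 𝔼 j ∈ range K, Mx i j) + 2 * X / N := by
          rw [expect_add_distrib, expect_const hΛ, mul_expect]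
      _ = _ := by
          congr 2
          refine expect_congr rfl fun i _ => expect_congr rfl fun j _ => ?_
          rw [hθ]

end

end Pool.Agent.Helper57.NX
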